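import Pool.Agent.K9h37.TN.Init

/-!
MP_602153_ag: regular models, projective and flat over the integers, of diagonal hypersurfaces
`∑ c_i X_i ^ m = 0` of squarefree degree `m ≥ 3` over number fields, in every dimension.

The condition concerns only the primes `𝔭` which contain `m`: up to `m`-th powers and a common
factor the coefficients are not in `𝔭`, and `𝔭` is unramified over `p` (or mildly ramified, with a
congruence for the coefficients). There is no condition at the other primes: the valuations of the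
coefficients and the ramification are arbitrary there. Over the rational numbers: all diagonal
hypersurfaces with squarefree `m ≥ 3` and coefficients prime to `m`.

At the primes which do not contain `m` the equation is nondegenerate with respect to its Newton
polyhedron, and the model is constructed from a smooth subdivision of the fan of the projective
space with a strictly convex support function; at the primes which contain `m` the singular points
of the equation with unit coefficients are resolved by an explicit blowing up.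
-/

set_option autoImplicit false

open AlgebraicGeometry CategoryTheory CategoryTheory.Limits MvPolynomial

open scoped NumberField

namespace Pool.Agent.Results.MP_602153_ag.DiagonalSquarefreeDegree

/-- The condition on the coefficients `a` of a diagonal equation of degree `d` at a prime `𝔭` which
contains `d`: they are not in `𝔭`, and for the prime divisors `p` of `d` in `𝔭`, either `p` is not
in `𝔭 ^ 2`, or the ramification index `r` of `𝔭` over `p` divides `p - 1` and modulo `𝔭 ^ (2 r)`
the coefficients are products of integers and `p`-th powers. -/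
def WildCondition {R : Type} [CommRing R] (𝔭 : Ideal R) (d : ℕ) {m : ℕ} (a : Fin m → R) : Prop :=
  (∀ i, a i ∉ 𝔭) ∧ ∀ p : ℕ, p.Prime → p ∣ d → (p : R) ∈ 𝔭 →
    (p : R) ∉ 𝔭 ^ 2 ∨ ∃ r : ℕ, 2 ≤ r ∧ r ∣ p - 1 ∧ (p : R) ∈ 𝔭 ^ r ∧ (p : R) ∉ 𝔭 ^ (r + 1) ∧
      ∀ i, ∃ (z : ℤ) (y : R), a i - z * y ^ p ∈ 𝔭 ^ (2 * r)

/-- The dimensions of the local rings of `A` equal the dimensions of their cotangent spaces. -/
def HasRegularLocalRings (A : Type) [CommRing A] : Prop :=
  ∀ p : PrimeSpectrum A, ringKrullDim (Localization.AtPrime p.asIdeal) =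
    (((Module.finrank (IsLocalRing.ResidueField (Localization.AtPrime p.asIdeal))
      (IsLocalRing.CotangentSpace (Localization.AtPrime p.asIdeal)) : ℕ) : ℕ∞) : WithBot ℕ∞)

/-- The local rings of the locally Noetherian scheme `Y` are regular. -/
def IsRegularScheme (Y : Scheme.{0}) : Prop :=
  IsLocallyNoetherian Y ∧
  ∀ U : Y.affineOpens, HasRegularLocalRings (Y.presheaf.obj (Opposite.op U.1))

/-- `Y` is projective over the integers. -/
def IsProjectiveOverInt (Y : Scheme.{0}) : Prop :=
  ∃ (A : Type) (_ : CommRing A) (𝒜 : ℕ → Submodule ℤ A) (_ : GradedAlgebra 𝒜),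
    (∀ a ∈ 𝒜 0, ∃ n : ℤ, (n : A) = a) ∧
    (∃ s : Finset A, (∀ a ∈ s, a ∈ 𝒜 1) ∧ Algebra.adjoin ℤ (s : Set A) = ⊤) ∧
    Nonempty (Y ≅ Proj 𝒜)

/-- The generic fibre of `Y` is isomorphic to `V`. -/
def HasGenericFibre (Y V : Scheme.{0}) : Prop :=
  Nonempty (pullback (specZIsTerminal.from Y)
      (specZIsTerminal.from (Spec (CommRingCat.of ℚ))) ≅ V)

/-- `Y` is an integral regular locally Noetherian scheme, projective and flat over the integers,
with generic fibre `V`. -/
def IsRegularProjectiveFlatModel (V Y : Scheme.{0}) : Prop :=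
  IsIntegral Y ∧ IsRegularScheme Y ∧ IsProjectiveOverInt Y ∧ Flat (specZIsTerminal.from Y) ∧
    HasGenericFibre Y V

/-- Every scheme `V` isomorphic to the hypersurface `Proj (K[X] / (G))`, viewed over the rational
numbers, has a regular projective flat model over the integers. -/
def HypersurfaceHasModel {K : Type} [Field K] {m : ℕ} (G : MvPolynomial (Fin m) K) :
    Prop :=
  ∀ (B : Type) [CommRing B] [Algebra K B]
    (π : MvPolynomial (Fin m) K →ₐ[K] B), Function.Surjective π →
    RingHom.ker π = Ideal.span {G} →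
  ∀ (ℬ : ℕ → Submodule K B) [GradedAlgebra ℬ],
    (∀ d, ℬ d = (homogeneousSubmodule (Fin m) K d).map π.toLinearMap) →
  ∀ (V : Scheme.{0}), Nonempty (V ≅ Proj ℬ) → ∃ Y, IsRegularProjectiveFlatModel V Y

theorem result : ∀ (K : Type) [Field K] [NumberField K] (m : ℕ), 3 ≤ m → Squarefree m →
    ∀ (n : ℕ) (c : Fin (n + 3) → K), (∀ i, c i ≠ 0) →
    (∀ 𝔭 : Ideal (𝓞 K), 𝔭.IsPrime → 𝔭 ≠ ⊥ → (m : 𝓞 K) ∈ 𝔭 →
      ∃ (a : Fin (n + 3) → 𝓞 K) (b : Fin (n + 3) → K) (l : K), l ≠ 0 ∧ (∀ i, b i ≠ 0) ∧
        (∀ i, algebraMap (𝓞 K) K (a i) = l * c i * b i ^ m) ∧ WildCondition 𝔭 m a) →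
    HypersurfaceHasModel (∑ i, C (c i) * X i ^ m) := by
  intro K _ _ m hm hsq n c hc hw
  have hloc := Pool.Agent.K9h37.TN.locReg3_diag (n := n + 1) m hm hsq c hc (by
    intro 𝔭 hp h0 hm𝔭
    obtain ⟨a, b, l, hl, hb, hab, ha, hpp⟩ := hw 𝔭 hp h0 hm𝔭
    exact ⟨a, b, l, hl, hb, hab, ha, hpp⟩)
  intro B _ _ π hπ hker ℬ _ hℬ V hV
  obtain ⟨Y, hi, hn, hr, hp, hf, hg⟩ :=
    Pool.Agent.K9h37.TN.model_Z3 (n := n + 1) (by omega) _ m (by omega)
      (Pool.Agent.K9h37.TN.diag_homog m c)
      (Pool.Agent.K9h37.TN.smooth_diag (by omega) c hc) hloc π hπ hker ℬ hℬ V hV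
  exact ⟨Y, hi, ⟨hn, hr⟩, hp, hf, hg⟩

end Pool.Agent.Results.MP_602153_ag.DiagonalSquarefreeDegree
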