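import Pool.Agent.K9h37.PP.Fin2
import Pool.Agent.K9h37.PP.Asm4
import Pool.Agent.K9h37.PP.Loct
import Pool.Agent.K9h37.PP.Crt
import Pool.Agent.K9h37.PP.Smo

/-!
MP_602153_ag: for all `m ≥ 3` and `d ≥ 3` the integral forms of degree `d` in `m` variables which
define a smooth hypersurface over the rational numbers and are good at all primes have a density,
which is the product of the local densities and positive; and all of them have a regular model,
projective and flat over the integers.

Good at the prime `p` means: regular at the points over `p`, or `p` is odd and the reduction modulo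
`p` is smooth or has exactly one singular point, a nondegenerate double point (of any depth: the
equation may be arbitrarily singular there).

The proof. The local conditions depend on the class modulo `p ^ 2`. The forms whose reduction
modulo `p` has two singular points or a degenerate one are in a closed subset of codimension two, and
a sieve shows that those which violate the condition at some `p > M` have upper density at most
`C / M`. For a form good at all primes the reductions modulo the odd primes at which it is not
regular have exactly one singular point, rational over the prime field. Hensel's lemma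
gives coordinates in which the equation is `u p ^ k + p ^ (e+1) (...) + q (x) + ...` with
`k = 2 e` or `k = 2 e + 1`, and the chain of `e` blowings up of the origin of the special fibre
(it is a toric modification of the projective space over the `p`-adic integers) is regular. The
local models are glued to a projective model over the integers. The density is positive because
there is a form which is regular at all primes.
-/

set_option autoImplicit false

open AlgebraicGeometry CategoryTheory CategoryTheory.Limits MvPolynomial

namespace Pool.Agent.Results.MP_602153_ag.LocalDensities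

/-- The exponents of the monomials of degree `d` in `m` variables. -/
abbrev Exponents (m d : ℕ) : Type :=
  {α : Fin m →₀ ℕ // α ∈ (Finset.univ : Finset (Fin m)).finsuppAntidiag d}

/-- The form of degree `d` with the coefficients `a`. -/
noncomputable def form {R : Type} [CommRing R] {m d : ℕ} (a : Exponents m d → R) :
    MvPolynomial (Fin m) R :=
  ∑ α : Exponents m d, monomial α.1 (a α)

/-- The families of integers of absolute value at most `B`. -/
noncomputable def coefficients (m d B : ℕ) : Finset (Exponents m d → ℤ) :=
  Fintype.piFinset fun _ => Finset.Icc (-(B : ℤ)) B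

/-- The partial derivatives of `G` have no common zero (over an algebraic closure) but the origin:
every variable has a power in the ideal they generate. -/
def IsSmooth {K : Type} [Field K] {m : ℕ} (G : MvPolynomial (Fin m) K) : Prop :=
  ∀ i, X i ∈ (Ideal.span (Set.range fun j => pderiv j G)).radical

/-- The polynomial in the variables `X j`, `j ≠ s`, obtained from `H` by setting `X s = 1`: the
equation of the hypersurface `H = 0` in the chart `X s ≠ 0` of the projective space over `R`. -/
noncomputable def dehom {R : Type} [CommRing R] {m : ℕ} (s : Fin m) (H : MvPolynomial (Fin m) R) :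
    MvPolynomial {j : Fin m // j ≠ s} R :=
  aeval (fun j => if h : j = s then 1 else X ⟨j, h⟩) H

/-- The scheme `H = 0` in the projective space over `R` is regular at its points over `𝔭`: for every
chart `s` and every prime `Q` of the polynomial ring of the chart lying over `𝔭` and containing the
equation, the equation is not in the square of the maximal ideal of the localization at `Q`. -/
def IsRegularAt {R : Type} [CommRing R] (𝔭 : Ideal R) {m : ℕ} (H : MvPolynomial (Fin m) R) :
    Prop :=
  ∀ (s : Fin m) (Q : Ideal (MvPolynomial {j : Fin m // j ≠ s} R)), Q.IsPrime →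
    (∀ r : R, C r ∈ Q ↔ r ∈ 𝔭) → dehom s H ∈ Q → ∀ h, h ∉ Q → h * dehom s H ∉ Q ^ 2

/-- `F` and its partial derivatives vanish at the vector `x`. -/
def IsSingularAt {k : Type} [Field k] {m : ℕ} (F : MvPolynomial (Fin m) k) (x : Fin m → k) :
    Prop :=
  eval x F = 0 ∧ ∀ i, eval x (pderiv i F) = 0

/-- There are linearly independent vectors `x` and `y` such that `x` is singular, and `y` is
singular or in the kernel of the Hessian matrix at `x`: the hypersurface has two singular points
rational over `k`, or a singular point rational over `k` which is degenerate. -/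
def IsBad {k : Type} [Field k] {m : ℕ} (F : MvPolynomial (Fin m) k) : Prop :=
  ∃ x y : Fin m → k, LinearIndependent k ![x, y] ∧ IsSingularAt F x ∧
    (IsSingularAt F y ∨ ∀ i, ∑ j, eval x (pderiv i (pderiv j F)) * y j = 0)

/-- The form with the coefficients `a` is regular at `p`, or `p` is odd and the reduction of the
form is not bad over any field of characteristic `p`: it is smooth or has exactly one singular
point, which is a nondegenerate double point. -/
def IsGoodAt (p : ℕ) {m d : ℕ} (a : Exponents m d → ℤ) : Prop :=
  IsRegularAt (Ideal.span {(p : ℤ)}) (form a) ∨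
  (p ≠ 2 ∧ ∀ (k : Type) [Field k] [CharP k p], ¬ IsBad (form (fun α => (a α : k))))

open Classical in
/-- The proportion of the families of coefficients modulo `p ^ 2` (represented by the integers
`0, ..., p ^ 2 - 1`) which are good at `p`. -/
noncomputable def localDensity (m d p : ℕ) : ℝ :=
  (((Fintype.piFinset fun _ : Exponents m d => Finset.Ico (0 : ℤ) ((p : ℤ) ^ 2)).filter
    (fun a => IsGoodAt p a)).card : ℝ) / ((p : ℝ) ^ 2) ^ Fintype.card (Exponents m d)

/-- The dimensions of the local rings of `A` equal the dimensions of their cotangent spaces. -/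
def HasRegularLocalRings (A : Type) [CommRing A] : Prop :=
  ∀ p : PrimeSpectrum A, ringKrullDim (Localization.AtPrime p.asIdeal) =
    (((Module.finrank (IsLocalRing.ResidueField (Localization.AtPrime p.asIdeal))
      (IsLocalRing.CotangentSpace (Localization.AtPrime p.asIdeal)) : ℕ) : ℕ∞) : WithBot ℕ∞)

/-- The local rings of the locally Noetherian scheme `Y` are regular. -/
def IsRegularScheme (Y : Scheme.{0}) : Prop :=
  IsLocallyNoetherian Y ∧
  ∀ U : Y.affineOpens, HasRegularLocalRings (Y.presheaf.obj (Opposite.op U.1))

/-- `Y` is projective over the integers. -/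
def IsProjectiveOverInt (Y : Scheme.{0}) : Prop :=
  ∃ (A : Type) (_ : CommRing A) (𝒜 : ℕ → Submodule ℤ A) (_ : GradedAlgebra 𝒜),
    (∀ a ∈ 𝒜 0, ∃ n : ℤ, (n : A) = a) ∧
    (∃ s : Finset A, (∀ a ∈ s, a ∈ 𝒜 1) ∧ Algebra.adjoin ℤ (s : Set A) = ⊤) ∧
    Nonempty (Y ≅ Proj 𝒜)

/-- The generic fibre of `Y` is isomorphic to `V`. -/
def HasGenericFibre (Y V : Scheme.{0}) : Prop :=
  Nonempty (pullback (specZIsTerminal.from Y)
      (specZIsTerminal.from (Spec (CommRingCat.of ℚ))) ≅ V)

/-- `Y` is an integral regular locally Noetherian scheme, projective and flat over the integers,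
with generic fibre `V`. -/
def IsRegularProjectiveFlatModel (V Y : Scheme.{0}) : Prop :=
  IsIntegral Y ∧ IsRegularScheme Y ∧ IsProjectiveOverInt Y ∧ Flat (specZIsTerminal.from Y) ∧
    HasGenericFibre Y V

/-- Every scheme `V` isomorphic to the hypersurface `Proj (ℚ[X] / (G))` has a regular projective
flat model over the integers. -/
def HypersurfaceHasModel {m : ℕ} (G : MvPolynomial (Fin m) ℚ) : Prop :=
  ∀ (B : Type) [CommRing B] [Algebra ℚ B]
    (π : MvPolynomial (Fin m) ℚ →ₐ[ℚ] B), Function.Surjective π →
    RingHom.ker π = Ideal.span {G} →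
  ∀ (ℬ : ℕ → Submodule ℚ B) [GradedAlgebra ℬ],
    (∀ d, ℬ d = (homogeneousSubmodule (Fin m) ℚ d).map π.toLinearMap) →
  ∀ (V : Scheme.{0}), Nonempty (V ≅ Proj ℬ) → ∃ Y, IsRegularProjectiveFlatModel V Y

open Classical in
theorem result : ∀ n d : ℕ, 3 ≤ d → ∃ δ : ℝ, 0 < δ ∧
    Filter.Tendsto (fun M : ℕ => ∏ p ∈ (Finset.range (M + 1)).filter Nat.Prime,
      localDensity (n + 3) d p) Filter.atTop (nhds δ) ∧
    Filter.Tendsto (fun B : ℕ => (((coefficients (n + 3) d B).filter
        (fun a => IsSmooth (form (fun α => (a α : ℚ))) ∧ (∀ p : ℕ, p.Prime → IsGoodAt p a) ∧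
          HypersurfaceHasModel (form (fun α => (a α : ℚ))))).card : ℝ) /
      ((coefficients (n + 3) d B).card : ℝ)) Filter.atTop (nhds δ) := by
  intro n d hd
  obtain ⟨δ, hδ, h1, h2⟩ := Pool.Agent.K9h37.PP.asm2 Pool.Agent.K9h37.PP.tail
    Pool.Agent.K9h37.PP.CRTp.crt Pool.Agent.K9h37.PP.smo Pool.Agent.K9h37.PP.loc (n + 3) d
    (by omega) hd
  refine ⟨δ, hδ, h1, ?_⟩
  have key : ∀ a : Exponents (n + 3) d → ℤ, IsSmooth (form (fun α => (a α : ℚ))) →
      (∀ p : ℕ, p.Prime → IsGoodAt p a) → HypersurfaceHasModel (form (fun α => (a α : ℚ))) := by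
    intro a hsm hgood A _ _ π hπ hker ℬ _ hℬ V hV
    have ha2 : Pool.Agent.K9h37.PP.Good d (Pool.Agent.K9h37.PP.form a) :=
      Pool.Agent.K9h37.PP.good2 (n + 3) d (by omega) hd a hsm hgood
    have hform : map (Int.castRingHom ℚ) (Pool.Agent.K9h37.PP.form a) =
        form (fun α => (a α : ℚ)) := by
      rw [Pool.Agent.K9h37.PP.map_form]
      rfl
    have hhom : (Pool.Agent.K9h37.PP.form a).IsHomogeneous d := Pool.Agent.K9h37.PP.form_hom a
    have hsm' : Pool.Agent.TH214.RM.Smooth
        (map (Int.castRingHom ℚ) (Pool.Agent.K9h37.PP.form a)) := ha2.1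
    rw [← hform] at hker
    obtain ⟨Y, hi, hn, hr, hp, hf, hg⟩ := Pool.Agent.K9h37.PP.model_Z4 (O := ℤ) (K := ℚ)
      (n := n + 1) (by omega) (map (Int.castRingHom ℚ) (Pool.Agent.K9h37.PP.form a)) d
      (by omega) (hhom.map _) hsm'
      (Pool.Agent.K9h37.PP.locReg4_of_good (n := n + 1) _ d (by omega) hhom ha2)
      π hπ hker ℬ hℬ V hV
    exact ⟨Y, hi, ⟨hn, hr⟩, hp, hf, hg⟩
  refine h2.congr fun B => ?_
  congr 2
  refine congrArg Finset.card (Finset.filter_congr fun a _ => ?_)
  exact ⟨fun h => ⟨h.1, h.2, key a h.1 h.2⟩, fun h => ⟨h.1, h.2.1⟩⟩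

end Pool.Agent.Results.MP_602153_ag.LocalDensities
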