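import Pool.Agent.K9h37.PP.Fin2
import Pool.Agent.K9h37.PP.Asm2

/-!
MP_602153_ag: regular models, projective and flat over the integers, of smooth projective
hypersurfaces of any dimension over number fields whose reductions are nodal.

If for every prime `𝔭` of the number field the hypersurface has, in suitable linear coordinates over
the field, an integral equation which is (a) regular at the points over `𝔭`, or (b) not over `2` and
such that its reduction modulo `𝔭` is smooth or has exactly one singular point over the algebraic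
closure, and the Hessian matrix is nondegenerate there (an ordinary double point), then it has a
regular projective flat model over the integers. There is no condition on the depth of the double
point: the equation may be arbitrarily singular at the corresponding point.
-/

set_option autoImplicit false

open AlgebraicGeometry CategoryTheory CategoryTheory.Limits MvPolynomial

open scoped NumberField

namespace Pool.Agent.Results.MP_602153_ag.NodalFibres

/-- The polynomial in the variables `X j`, `j ≠ s`, obtained from `H` by setting `X s = 1`: the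
equation of the hypersurface `H = 0` in the chart `X s ≠ 0` of the projective space over `R`. -/
noncomputable def dehom {R : Type} [CommRing R] {m : ℕ} (s : Fin m) (H : MvPolynomial (Fin m) R) :
    MvPolynomial {j : Fin m // j ≠ s} R :=
  aeval (fun j => if h : j = s then 1 else X ⟨j, h⟩) H

/-- The scheme `H = 0` in the projective space over `R` is regular at its points over `𝔭`: for every
chart `s` and every prime `Q` of the polynomial ring of the chart lying over `𝔭` and containing the
equation, the equation is not in the square of the maximal ideal of the localization at `Q`. -/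
def IsRegularAt {R : Type} [CommRing R] (𝔭 : Ideal R) {m : ℕ} (H : MvPolynomial (Fin m) R) :
    Prop :=
  ∀ (s : Fin m) (Q : Ideal (MvPolynomial {j : Fin m // j ≠ s} R)), Q.IsPrime →
    (∀ r : R, C r ∈ Q ↔ r ∈ 𝔭) → dehom s H ∈ Q → ∀ h, h ∉ Q → h * dehom s H ∉ Q ^ 2

/-- `x` is a singular vector of `F`: `x ≠ 0`, and `F` and its partial derivatives vanish at `x`. -/
def IsSingularVector {k : Type} [Field k] {m : ℕ} (F : MvPolynomial (Fin m) k) (x : Fin m → k) :
    Prop :=
  x ≠ 0 ∧ eval x F = 0 ∧ ∀ i, eval x (pderiv i F) = 0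

/-- The kernel of the Hessian matrix of `F` at `x` is contained in the line through `x`: for a
singular vector `x` this means that the singular point is a nondegenerate double point. -/
def IsNondegenerateVector {k : Type} [Field k] {m : ℕ} (F : MvPolynomial (Fin m) k)
    (x : Fin m → k) : Prop :=
  ∀ y : Fin m → k, (∀ i, ∑ j, eval x (pderiv i (pderiv j F)) * y j = 0) → ∃ c : k, y = c • x

/-- Over every field `k` which contains `R / 𝔭` (over every `ψ : R → k` with kernel `𝔭`) the
reduction of `H` has at most one singular point, and it is nondegenerate. -/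
def IsNodalAt {R : Type} [CommRing R] (𝔭 : Ideal R) {m : ℕ} (H : MvPolynomial (Fin m) R) : Prop :=
  ∀ (k : Type) [Field k] (ψ : R →+* k), RingHom.ker ψ = 𝔭 → ∀ x : Fin m → k,
    IsSingularVector (map ψ H) x → IsNondegenerateVector (map ψ H) x ∧
      ∀ y : Fin m → k, IsSingularVector (map ψ H) y → ∃ c : k, y = c • x

/-- The partial derivatives of `G` have no common zero (over an algebraic closure) but the origin:
every variable has a power in the ideal they generate. -/
def IsSmooth {K : Type} [Field K] {m : ℕ} (G : MvPolynomial (Fin m) K) : Prop :=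
  ∀ i, X i ∈ (Ideal.span (Set.range fun j => pderiv j G)).radical

/-- `H` is obtained from `G` by the linear change of coordinates `T` and multiplication with the
scalar `l`. -/
def IsEquation {R K : Type} [CommRing R] [Field K] [Algebra R K] {m : ℕ}
    (G : MvPolynomial (Fin m) K) (H : MvPolynomial (Fin m) R) (l : K)
    (T : Matrix (Fin m) (Fin m) K) : Prop :=
  map (algebraMap R K) H = C l * aeval (fun i => ∑ j, C (T i j) * X j) G

/-- For every prime `𝔭` an invertible linear change of coordinates over the number field and a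
nonzero scalar turn `G` into a form with integral coefficients which is regular at `𝔭`, or (if `2`
is not in `𝔭`) whose reduction is smooth or nodal with one node. -/
def HasNodalEquations {K : Type} [Field K] {m : ℕ} (G : MvPolynomial (Fin m) K) : Prop :=
  ∀ 𝔭 : Ideal (𝓞 K), 𝔭.IsPrime → 𝔭 ≠ ⊥ →
    ∃ (H : MvPolynomial (Fin m) (𝓞 K)) (l : K) (T T' : Matrix (Fin m) (Fin m) K),
      l ≠ 0 ∧ T * T' = 1 ∧ IsEquation G H l T ∧
        (IsRegularAt 𝔭 H ∨ ((2 : 𝓞 K) ∉ 𝔭 ∧ IsNodalAt 𝔭 H))

/-- The dimensions of the local rings of `A` equal the dimensions of their cotangent spaces. -/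
def HasRegularLocalRings (A : Type) [CommRing A] : Prop :=
  ∀ p : PrimeSpectrum A, ringKrullDim (Localization.AtPrime p.asIdeal) =
    (((Module.finrank (IsLocalRing.ResidueField (Localization.AtPrime p.asIdeal))
      (IsLocalRing.CotangentSpace (Localization.AtPrime p.asIdeal)) : ℕ) : ℕ∞) : WithBot ℕ∞)

/-- The local rings of the locally Noetherian scheme `Y` are regular. -/
def IsRegularScheme (Y : Scheme.{0}) : Prop :=
  IsLocallyNoetherian Y ∧
  ∀ U : Y.affineOpens, HasRegularLocalRings (Y.presheaf.obj (Opposite.op U.1))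

/-- `Y` is projective over the integers. -/
def IsProjectiveOverInt (Y : Scheme.{0}) : Prop :=
  ∃ (A : Type) (_ : CommRing A) (𝒜 : ℕ → Submodule ℤ A) (_ : GradedAlgebra 𝒜),
    (∀ a ∈ 𝒜 0, ∃ n : ℤ, (n : A) = a) ∧
    (∃ s : Finset A, (∀ a ∈ s, a ∈ 𝒜 1) ∧ Algebra.adjoin ℤ (s : Set A) = ⊤) ∧
    Nonempty (Y ≅ Proj 𝒜)

/-- The generic fibre of `Y` is isomorphic to `V`. -/
def HasGenericFibre (Y V : Scheme.{0}) : Prop :=
  Nonempty (pullback (specZIsTerminal.from Y)
      (specZIsTerminal.from (Spec (CommRingCat.of ℚ))) ≅ V)

/-- `Y` is an integral regular locally Noetherian scheme, projective and flat over the integers,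
with generic fibre `V`. -/
def IsRegularProjectiveFlatModel (V Y : Scheme.{0}) : Prop :=
  IsIntegral Y ∧ IsRegularScheme Y ∧ IsProjectiveOverInt Y ∧ Flat (specZIsTerminal.from Y) ∧
    HasGenericFibre Y V

/-- Every scheme `V` isomorphic to the hypersurface `Proj (K[X] / (G))`, viewed over the rational
numbers, has a regular projective flat model over the integers. -/
def HypersurfaceHasModel {K : Type} [Field K] {m : ℕ} (G : MvPolynomial (Fin m) K) :
    Prop :=
  ∀ (B : Type) [CommRing B] [Algebra K B]
    (π : MvPolynomial (Fin m) K →ₐ[K] B), Function.Surjective π →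
    RingHom.ker π = Ideal.span {G} →
  ∀ (ℬ : ℕ → Submodule K B) [GradedAlgebra ℬ],
    (∀ d, ℬ d = (homogeneousSubmodule (Fin m) K d).map π.toLinearMap) →
  ∀ (V : Scheme.{0}), Nonempty (V ≅ Proj ℬ) → ∃ Y, IsRegularProjectiveFlatModel V Y

theorem result : ∀ (K : Type) [Field K] [NumberField K] (n d : ℕ), 2 ≤ d →
    ∀ G : MvPolynomial (Fin (n + 3)) K, G.IsHomogeneous d → IsSmooth G →
    HasNodalEquations G → HypersurfaceHasModel G := by
  intro K _ _ n d hd G hG hsm hgood B _ _ π hπ hker ℬ _ hℬ V hV
  have hfin : ∀ 𝔭 : Ideal (𝓞 K), 𝔭.IsPrime → 𝔭 ≠ ⊥ → Finite (𝓞 K ⧸ 𝔭) := by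
    intro 𝔭 _ h0
    exact Ideal.finiteQuotientOfFreeOfNeBot 𝔭 h0
  have hOK : Function.Injective (algebraMap (𝓞 K) K) := IsFractionRing.injective (𝓞 K) K
  have hloc : Pool.Agent.K9h37.PP.LocReg4 (𝓞 K) (n := n + 1) G d := by
    refine Pool.Agent.K9h37.PP.locReg4_of_nodal hfin G d hd hG hsm ?_
    intro 𝔭 hp h0
    obtain ⟨H, l, T, T', hl, hT, hH, hcase⟩ := hgood 𝔭 hp h0
    refine ⟨H, l, T, T', hl, hT, hH, ?_⟩
    rcases hcase with hreg | ⟨h2, hN⟩
    · exact Or.inl hreg
    · have hHd : H.IsHomogeneous d := by
        refine IsHomogeneous.of_map (f := algebraMap (𝓞 K) K) hOK ?_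
        rw [hH]
        have h1 : ((aeval (fun i => ∑ j, C (T i j) * X j) :
            MvPolynomial (Fin (n + 3)) K →ₐ[K] MvPolynomial (Fin (n + 3)) K) G).IsHomogeneous
              (1 * d) := by
          refine hG.aeval _ fun i => ?_
          refine IsHomogeneous.sum _ _ _ fun j _ => ?_
          have h2 := (isHomogeneous_C (Fin (n + 3)) (T i j)).mul (isHomogeneous_X K j)
          rwa [zero_add] at h2
        have h2 := (isHomogeneous_C (Fin (n + 3)) l).mul h1
        rwa [zero_add, one_mul] at h2
      by_cases h : ∀ (k : Type) [Field k] (ψ : 𝓞 K →+* k) (x : Fin (n + 3) → k),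
          RingHom.ker ψ = 𝔭 → Pool.Agent.K9h37.PP.Sing (map ψ H) x → x = 0
      · exact Or.inl (Pool.Agent.K9h37.PP.reg_of_smooth hHd h)
      · refine Or.inr ⟨h2, ?_, ?_⟩
        · rintro k _ ψ hψ ⟨x, y, hxy, hx, hy⟩
          have hx0 : x ≠ 0 := by
            have := hxy.ne_zero 0
            simpa using this
          have hy0 : y ≠ 0 := by
            have := hxy.ne_zero 1
            simpa using this
          have hdep : ∀ c : k, y ≠ c • x := by
            intro c hc
            have h3 := LinearIndependent.pair_iff.1 hxy c (-1) (by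
              rw [hc, neg_one_smul, add_neg_cancel])
            exact one_ne_zero (neg_eq_zero.1 h3.2)
          obtain ⟨h3, h4⟩ := hN k ψ hψ x ⟨hx0, hx.1, hx.2⟩
          rcases hy with hy | hy
          · obtain ⟨c, hc⟩ := h4 y ⟨hy0, hy.1, hy.2⟩
            exact hdep c hc
          · obtain ⟨c, hc⟩ := h3 y hy
            exact hdep c hc
        · push Not at h
          obtain ⟨k, hk, ψ, x, hψ, hx, hx0⟩ := h
          exact ⟨k, hk, ψ, x, hψ, hx0, hx⟩
  have hfin' : Module.Finite ℤ (𝓞 K) := inferInstance
  obtain ⟨Y, hi, hn, hr, hp, hf, hg⟩ := Pool.Agent.K9h37.PP.model_Z4 (O := 𝓞 K) (K := K)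
    (n := n + 1) (by omega) G d hd hG hsm hloc π hπ hker ℬ hℬ V hV
  exact ⟨Y, hi, ⟨hn, hr⟩, hp, hf, hg⟩

end Pool.Agent.Results.MP_602153_ag.NodalFibres
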