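import Pool.Agent.K9h37.TN.Init

/-!
MP_602153_ag: regular models, projective and flat over the integers, of smooth projective
hypersurfaces over number fields, in every degree and every dimension.

If for every prime `𝔭` of the number field the hypersurface has, in suitable linear coordinates
over the field, an integral equation which is nondegenerate with respect to its Newton
polyhedron at `𝔭` and convenient, or regular at the points over `𝔭`, then it has a regular
projective flat model over the integers. (The model at a prime with an equation of the first type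
is constructed from a smooth subdivision of the fan of the projective space, with a strictly convex
support function.)
-/

set_option autoImplicit false

open AlgebraicGeometry CategoryTheory CategoryTheory.Limits MvPolynomial

open scoped NumberField

namespace Pool.Agent.Results.MP_602153_ag.NondegenerateHypersurfaces

/-- The polynomial in the variables `X j`, `j ≠ s`, obtained from `H` by setting `X s = 1`: the
equation of the hypersurface `H = 0` in the chart `X s ≠ 0` of the projective space over `R`. -/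
noncomputable def dehom {R : Type} [CommRing R] {m : ℕ} (s : Fin m) (H : MvPolynomial (Fin m) R) :
    MvPolynomial {j : Fin m // j ≠ s} R :=
  aeval (fun j => if h : j = s then 1 else X ⟨j, h⟩) H

/-- The scheme `H = 0` in the projective space over `R` is regular at its points over `𝔭`: for every
chart `s` and every prime `Q` of the polynomial ring of the chart lying over `𝔭` and containing the
equation, the equation is not in the square of the maximal ideal of the localization at `Q`. -/
def IsRegularAt {R : Type} [CommRing R] (𝔭 : Ideal R) {m : ℕ} (H : MvPolynomial (Fin m) R) :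
    Prop :=
  ∀ (s : Fin m) (Q : Ideal (MvPolynomial {j : Fin m // j ≠ s} R)), Q.IsPrime →
    (∀ r : R, C r ∈ Q ↔ r ∈ 𝔭) → dehom s H ∈ Q → ∀ h, h ∉ Q → h * dehom s H ∉ Q ^ 2

/-- The hypersurface `f = 0` has no singular points with nonzero coordinates in `k`. -/
def IsSmoothOnTorus {k : Type} [Field k] {m : ℕ} (f : MvPolynomial (Fin m) k) : Prop :=
  ∀ ξ : Fin m → k, (∀ i, ξ i ≠ 0) → eval ξ f = 0 → ∃ i, eval ξ (pderiv i f) ≠ 0

/-- For `ψ : R → k`, the initial form over `k`, with respect to the weights `w` of the variables and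
the weight `N` of `ϖ`, of the sum of the terms `ε a * ϖ ^ v a * X ^ a`, `a ∈ A`: the sum of the
`ψ (ε a) * X ^ a` over the `a ∈ A` for which the weight `N * v a + ∑ w i * a i` is minimal. -/
noncomputable def initialForm {R k : Type} [CommRing R] [Field k] {m : ℕ}
    (A : Finset (Fin m →₀ ℕ)) (ε : (Fin m →₀ ℕ) → R) (v : (Fin m →₀ ℕ) → ℕ) (N : ℕ)
    (w : Fin m → ℕ) (ψ : R →+* k) : MvPolynomial (Fin m) k :=
  ∑ a ∈ A.filter (fun a => ∀ b ∈ A, N * v a + ∑ i, w i * a i ≤ N * v b + ∑ i, w i * b i),
    monomial a (ψ (ε a))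

/-- The form `H` of degree `d` contains the monomials `X i ^ d` (it is convenient), its coefficients
are `ε a * ϖ ^ v a` with `ϖ ∈ 𝔭`, `ϖ ∉ 𝔭 ^ 2` and `ε a ∉ 𝔭`, and all its initial forms for the
weights `w i ≥ 0` of the variables and `N ≥ 1` of `ϖ` have no singular points with nonzero
coordinates in the fields which contain the residue ring of `𝔭`: it is nondegenerate with respect
to its Newton polyhedron at `𝔭`. (For every form over the fraction field of a Dedekind domain `R`,
some multiple has coefficients of this kind, for every choice of `ϖ`.) -/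
def IsNondegenerateAt {R : Type} [CommRing R] (𝔭 : Ideal R) (d : ℕ) {m : ℕ}
    (H : MvPolynomial (Fin m) R) : Prop :=
  (∀ i, H.coeff (Finsupp.single i d) ≠ 0) ∧ ∃ ϖ ∈ 𝔭, ϖ ∉ 𝔭 ^ 2 ∧
    ∃ (ε : (Fin m →₀ ℕ) → R) (v : (Fin m →₀ ℕ) → ℕ),
      (∀ a ∈ H.support, H.coeff a = ε a * ϖ ^ v a ∧ ε a ∉ 𝔭) ∧
      ∀ (N : ℕ) (w : Fin m → ℕ), 1 ≤ N → ∀ (k : Type) [Field k] (ψ : R →+* k),
        RingHom.ker ψ = 𝔭 → IsSmoothOnTorus (initialForm H.support ε v N w ψ)

/-- The partial derivatives of `G` have no common zero (over an algebraic closure) but the origin: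
every variable has a power in the ideal they generate. -/
def IsSmooth {K : Type} [Field K] {m : ℕ} (G : MvPolynomial (Fin m) K) : Prop :=
  ∀ i, X i ∈ (Ideal.span (Set.range fun j => pderiv j G)).radical

/-- `H` is obtained from `G` by the linear change of coordinates `T` and multiplication with the
scalar `l`. -/
def IsEquation {R K : Type} [CommRing R] [Field K] [Algebra R K] {m : ℕ}
    (G : MvPolynomial (Fin m) K) (H : MvPolynomial (Fin m) R) (l : K)
    (T : Matrix (Fin m) (Fin m) K) : Prop :=
  map (algebraMap R K) H = C l * aeval (fun i => ∑ j, C (T i j) * X j) G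

/-- For every prime `𝔭` an invertible linear change of coordinates over the number field and a
nonzero scalar turn `G` into a form with integral coefficients which is nondegenerate at `𝔭` or
regular at `𝔭`. -/
def HasGoodEquations {K : Type} [Field K] (d : ℕ) {m : ℕ} (G : MvPolynomial (Fin m) K) : Prop :=
  ∀ 𝔭 : Ideal (𝓞 K), 𝔭.IsPrime → 𝔭 ≠ ⊥ →
    ∃ (H : MvPolynomial (Fin m) (𝓞 K)) (l : K) (T T' : Matrix (Fin m) (Fin m) K),
      l ≠ 0 ∧ T * T' = 1 ∧ IsEquation G H l T ∧
        (IsNondegenerateAt 𝔭 d H ∨ IsRegularAt 𝔭 H)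

/-- The dimensions of the local rings of `A` equal the dimensions of their cotangent spaces. -/
def HasRegularLocalRings (A : Type) [CommRing A] : Prop :=
  ∀ p : PrimeSpectrum A, ringKrullDim (Localization.AtPrime p.asIdeal) =
    (((Module.finrank (IsLocalRing.ResidueField (Localization.AtPrime p.asIdeal))
      (IsLocalRing.CotangentSpace (Localization.AtPrime p.asIdeal)) : ℕ) : ℕ∞) : WithBot ℕ∞)

/-- The local rings of the locally Noetherian scheme `Y` are regular. -/
def IsRegularScheme (Y : Scheme.{0}) : Prop :=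
  IsLocallyNoetherian Y ∧
  ∀ U : Y.affineOpens, HasRegularLocalRings (Y.presheaf.obj (Opposite.op U.1))

/-- `Y` is projective over the integers. -/
def IsProjectiveOverInt (Y : Scheme.{0}) : Prop :=
  ∃ (A : Type) (_ : CommRing A) (𝒜 : ℕ → Submodule ℤ A) (_ : GradedAlgebra 𝒜),
    (∀ a ∈ 𝒜 0, ∃ n : ℤ, (n : A) = a) ∧
    (∃ s : Finset A, (∀ a ∈ s, a ∈ 𝒜 1) ∧ Algebra.adjoin ℤ (s : Set A) = ⊤) ∧
    Nonempty (Y ≅ Proj 𝒜)

/-- The generic fibre of `Y` is isomorphic to `V`. -/
def HasGenericFibre (Y V : Scheme.{0}) : Prop :=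
  Nonempty (pullback (specZIsTerminal.from Y)
      (specZIsTerminal.from (Spec (CommRingCat.of ℚ))) ≅ V)

/-- `Y` is an integral regular locally Noetherian scheme, projective and flat over the integers,
with generic fibre `V`. -/
def IsRegularProjectiveFlatModel (V Y : Scheme.{0}) : Prop :=
  IsIntegral Y ∧ IsRegularScheme Y ∧ IsProjectiveOverInt Y ∧ Flat (specZIsTerminal.from Y) ∧
    HasGenericFibre Y V

/-- Every scheme `V` isomorphic to the hypersurface `Proj (K[X] / (G))`, viewed over the rational
numbers, has a regular projective flat model over the integers. -/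
def HypersurfaceHasModel {K : Type} [Field K] {m : ℕ} (G : MvPolynomial (Fin m) K) :
    Prop :=
  ∀ (B : Type) [CommRing B] [Algebra K B]
    (π : MvPolynomial (Fin m) K →ₐ[K] B), Function.Surjective π →
    RingHom.ker π = Ideal.span {G} →
  ∀ (ℬ : ℕ → Submodule K B) [GradedAlgebra ℬ],
    (∀ d, ℬ d = (homogeneousSubmodule (Fin m) K d).map π.toLinearMap) →
  ∀ (V : Scheme.{0}), Nonempty (V ≅ Proj ℬ) → ∃ Y, IsRegularProjectiveFlatModel V Y

theorem result : ∀ (K : Type) [Field K] [NumberField K] (n d : ℕ), 2 ≤ d →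
    ∀ G : MvPolynomial (Fin (n + 3)) K, G.IsHomogeneous d → IsSmooth G →
    HasGoodEquations d G → HypersurfaceHasModel G := by
  intro K _ _ n d hd G hG hsm hgood
  have hloc : Pool.Agent.K9h37.TN.LocReg3 (𝓞 K) (n := n + 1) G d := by
    intro 𝔭 hp h0
    obtain ⟨H, l, T, T', hl, hT, hH, hcase⟩ := hgood 𝔭 hp h0
    refine ⟨H, l, T, T', hl, hT, hH, ?_⟩
    rcases hcase with ⟨h1, ϖ, hϖ, hϖ2, ε, v, hco, hnd⟩ | hreg
    · refine Or.inr (Or.inl ⟨h1, ϖ, hϖ, hϖ2, ε, v, hco, ?_⟩)
      refine Pool.Agent.K9h37.TN.ndr_of_init 𝔭 _ ε v ?_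
      intro N w hN k _ ψ hψ ξ hξ h
      exact hnd N w hN k ψ hψ ξ hξ h
    · exact Or.inl fun s Q hQ hCQ hQH => Or.inr (hreg s Q hQ hCQ hQH)
  intro B _ _ π hπ hker ℬ _ hℬ V hV
  obtain ⟨Y, hi, hn, hr, hp, hf, hg⟩ :=
    Pool.Agent.K9h37.TN.model_Z3 (n := n + 1) (by omega) G d hd hG hsm hloc π hπ hker ℬ hℬ V hV
  exact ⟨Y, hi, ⟨hn, hr⟩, hp, hf, hg⟩

end Pool.Agent.Results.MP_602153_ag.NondegenerateHypersurfaces
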